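import Pool.Agent.Helper28.LV.StL

/-!
# Project T7: uniqueness of bihomogeneous functions, matrices with lower left entry divisible by 7
-/

set_option autoImplicit false

namespace Pool.Agent.Helper28.T7

open Pool.Agent.Helper14.CV Pool.Agent.Helper28.WK Pool.Agent.Helper28.LV

/-- a polynomial with infinitely many roots -/
private theorem van {p : ℕ} [Fact p.Prime] (a : ℕ) (b : ℕ → ℚ_[p]) (t : ℕ → ℚ_[p])
    (ht : Function.Injective t)
    (h : ∀ k, ∑ j ∈ Finset.range (a + 1), b j * t k ^ j = 0) : ∀ j, j ≤ a → b j = 0 := by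
  have h1 : (∑ j ∈ Finset.range (a + 1), Polynomial.C (b j) * Polynomial.X ^ j) = 0 := by
    refine Polynomial.eq_zero_of_infinite_isRoot _ ?_
    refine Set.Infinite.mono ?_ (Set.infinite_range_of_injective ht)
    rintro _ ⟨k, rfl⟩
    simp only [Polynomial.IsRoot, Set.mem_ofPred_eq]
    rw [Polynomial.eval_finsetSum]
    simpa using h k
  intro j hj
  have h2 := congrArg (fun q => Polynomial.coeff q j) h1
  simp only [Polynomial.finsetSum_coeff, Polynomial.coeff_C_mul_X_pow, Polynomial.coeff_zero] at h2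
  rw [Finset.sum_ite_eq, if_pos (Finset.mem_range.mpr (by omega))] at h2
  exact h2

private theorem one_ne {p : ℕ} [hp : Fact p.Prime] (N : ℕ) (x c : ℤ) (hx : (p : ℤ) ^ (N + 1) ∣ x) :
    (1 : ℤ) + c * x ≠ 0 := by
  intro h
  have h1 : (p : ℤ) ∣ x := Dvd.dvd.trans (dvd_pow_self _ (Nat.succ_ne_zero N)) hx
  have h2 : (p : ℤ) ∣ 1 := by
    have h3 : (1 : ℤ) = -(c * x) := by linarith
    rw [h3]
    exact (dvd_neg).mpr (Dvd.dvd.mul_left h1 c)
  have h4 := Int.isUnit_iff.mp (isUnit_of_dvd_one h2)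
  have h5 := hp.out.two_le
  omega

/-- RGU for the integral matrices of determinant one with lower left entry divisible by 7 (`RgU` of project LV with the additional hypothesis `7 ∣ γ`). -/
def RgQ : Prop := ∀ (p : ℕ) (_ : Fact p.Prime) (a N : ℕ)
  (F : ℚ_[p] → ℚ_[p] → ℚ_[p] → ℚ_[p] → ℚ_[p]), Rg a F →
  (∀ α β γ δ : ℤ, α * δ - β * γ = 1 → (7 : ℤ) ∣ γ → (p : ℤ) ^ N ∣ α - 1 → (p : ℤ) ^ N ∣ β →
    (p : ℤ) ^ N ∣ γ → (p : ℤ) ^ N ∣ δ - 1 → F α β γ δ = 0) → ∀ α β γ δ : ℚ_[p], F α β γ δ = 0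

theorem hRgQ : RgQ := by
  intro p hp a N F hF h0
  obtain ⟨P, hP⟩ := hF
  have hp0 : ((p : ℤ) : ℚ_[p]) ≠ 0 := by
    exact_mod_cast hp.out.ne_zero
  have key : ∀ x c : ℤ, (p : ℤ) ^ (N + 1) ∣ x → 7 * (p : ℤ) ^ (N + 1) ∣ c →
      ∑ j ∈ Finset.range (a + 1), (∑ i ∈ Finset.range (a + 1), P i j * (x : ℚ_[p]) ^ i) *
        ((c : ℚ_[p]) / (1 + c * x)) ^ j = 0 := by
    intro x c hx hc0
    have hc : (p : ℤ) ^ (N + 1) ∣ c := (Dvd.intro_left _ rfl).trans hc0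
    have hc2 : (7 : ℤ) ∣ c := (Dvd.intro _ rfl).trans hc0
    have hN : (p : ℤ) ^ N ∣ (p : ℤ) ^ (N + 1) := pow_dvd_pow _ (Nat.le_succ N)
    have h1 := h0 1 x c (1 + c * x) (by ring) hc2 (by simp) (hN.trans hx) (hN.trans hc)
      (by simpa using Dvd.dvd.mul_left (hN.trans hx) c)
    have hne : (1 : ℚ_[p]) + c * x ≠ 0 := by
      exact_mod_cast one_ne N x c hx
    rw [hP] at h1
    have h2 : (1 + (c : ℚ_[p]) * x) ^ a * ∑ j ∈ Finset.range (a + 1),
        (∑ i ∈ Finset.range (a + 1), P i j * (x : ℚ_[p]) ^ i) *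
          ((c : ℚ_[p]) / (1 + c * x)) ^ j = 0 := by
      rw [← h1, Finset.mul_sum, Finset.sum_comm]
      refine Finset.sum_congr rfl fun j hj => ?_
      rw [Finset.sum_mul, Finset.mul_sum]
      refine Finset.sum_congr rfl fun i _ => ?_
      have hj' : j ≤ a := Nat.lt_succ_iff.mp (Finset.mem_range.mp hj)
      obtain ⟨m, rfl⟩ := Nat.exists_eq_add_of_le hj'
      rw [Nat.add_sub_cancel_left]
      push_cast
      rw [one_pow, pow_add, div_pow]
      field_simp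
    rcases mul_eq_zero.mp h2 with h3 | h3
    · exact absurd h3 (pow_ne_zero a hne)
    · exact h3
  have hb : ∀ x : ℤ, (p : ℤ) ^ (N + 1) ∣ x → ∀ j, j ≤ a →
      ∑ i ∈ Finset.range (a + 1), P i j * (x : ℚ_[p]) ^ i = 0 := by
    intro x hx
    refine van a (fun j => ∑ i ∈ Finset.range (a + 1), P i j * (x : ℚ_[p]) ^ i)
      (fun k : ℕ => ((7 * (p : ℤ) ^ (N + 1) * k : ℤ) : ℚ_[p]) /
        (1 + ((7 * (p : ℤ) ^ (N + 1) * k : ℤ) : ℚ_[p]) * x)) ?_ ?_
    · intro k l hkl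
      have h1 : (1 : ℚ_[p]) + ((7 * (p : ℤ) ^ (N + 1) * k : ℤ) : ℚ_[p]) * x ≠ 0 := by
        exact_mod_cast one_ne N x _ hx
      have h2 : (1 : ℚ_[p]) + ((7 * (p : ℤ) ^ (N + 1) * l : ℤ) : ℚ_[p]) * x ≠ 0 := by
        exact_mod_cast one_ne N x _ hx
      simp only at hkl
      rw [div_eq_div_iff h1 h2] at hkl
      have h3 : ((7 * (p : ℤ) ^ (N + 1) * k : ℤ) : ℚ_[p]) = ((7 * (p : ℤ) ^ (N + 1) * l : ℤ) : ℚ_[p]) := by
        linear_combination hkl
      have h4 : (7 * (p : ℤ) ^ (N + 1) * k : ℤ) = (7 * (p : ℤ) ^ (N + 1) * l : ℤ) := by exact_mod_cast h3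
      have h5 : (7 * (p : ℤ) ^ (N + 1)) ≠ 0 :=
        mul_ne_zero (by norm_num) (pow_ne_zero _ (by exact_mod_cast hp.out.ne_zero))
      exact_mod_cast mul_left_cancel₀ h5 h4
    · intro k
      exact key x _ hx (Dvd.intro _ rfl)
  have hc : ∀ j, j ≤ a → ∀ i, i ≤ a → P i j = 0 := by
    intro j hj
    refine van a (fun i => P i j) (fun k : ℕ => (((p : ℤ) ^ (N + 1) * k : ℤ) : ℚ_[p])) ?_ ?_
    · intro k l hkl
      simp only at hkl
      have h4 : ((p : ℤ) ^ (N + 1) * k : ℤ) = ((p : ℤ) ^ (N + 1) * l : ℤ) := by exact_mod_cast hkl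
      have h5 : ((p : ℤ) ^ (N + 1)) ≠ 0 := pow_ne_zero _ (by exact_mod_cast hp.out.ne_zero)
      exact_mod_cast mul_left_cancel₀ h5 h4
    · intro k
      exact hb _ (Dvd.intro _ rfl) j hj
  intro α β γ δ
  rw [hP]
  refine Finset.sum_eq_zero fun i hi => Finset.sum_eq_zero fun j hj => ?_
  rw [hc j (Nat.lt_succ_iff.mp (Finset.mem_range.mp hj)) i
    (Nat.lt_succ_iff.mp (Finset.mem_range.mp hi)), zero_mul]

end Pool.Agent.Helper28.T7
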