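import Pool.Agent.Helper28.T7.Defs
import Pool.Agent.Helper28.WK.StC

/-!
# Project T7 (levels `7 p^n`, `f | W_7 = f`): the statements of `Helper28/TH/StW.lean` with `7` in place of `2` and the same names
-/

set_option autoImplicit false

open Pool.Agent.Helper14.CV

namespace Pool.Agent.Helper28.T7

open Pool.Agent.Helper28.WK
open Pool.Agent.Helper28.TH (OkH ALPlus)

/-- As the item of the same name in `Helper28/TH/StW.lean` (proof there), with `7` in place of `2`. -/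
def TAH (p : ℕ) (κ : ℤ) : Prop := ∀ (m M : ℕ) (g : ℤ → ℤ → ZMod (p ^ M)), 5 ≤ m → SymH p 0 m g →
  EqC (act 0 (-1) (7 * (p : ℤ) ^ m) 0 g) (-g) → EqC (act (-1) 0 0 1 g) g →
  (∀ ls : List ℕ, OkH 7 p ls → evw 1 ls g = 0) →
  ∃ ψ : ℤ → ℤ → ZMod (p ^ M), SymH p 0 (m - 1) ψ ∧ EqC (act p 0 0 1 ψ - ψ) (κ • g)

/-- As the item of the same name in `Helper28/TH/StW.lean` (proof there), with `7` in place of `2`. -/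
structure WSymH {R : Type} [AddCommGroup R] (p a ν : ℕ) (Φ : ℤ → ℤ → ℕ → R) : Prop where
  hom : ∀ i : ℕ, i ≤ 2 * a → Homog (cp Φ i)
  eqv : ∀ α β γ δ : ℤ, α * δ - β * γ = 1 → (p : ℤ) ∣ β → (7 : ℤ) ∣ γ → (p : ℤ) ^ (ν + 1) ∣ γ →
    ∀ i : ℕ, i ≤ 2 * a →
    EqC (act α β γ δ (cp Φ i)) (pr Φ ((Polynomial.C α * Polynomial.X + Polynomial.C β) ^ i *
      (Polynomial.C γ * Polynomial.X + Polynomial.C δ) ^ (2 * a - i)))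
  eqq : ∀ α β γ δ : ℤ, α * δ - β * γ = 7 → (7 : ℤ) ∣ α → (7 : ℤ) ∣ γ → (7 : ℤ) ∣ δ → (p : ℤ) ∣ β →
    (p : ℤ) ^ (ν + 1) ∣ γ → ∀ i : ℕ, i ≤ 2 * a →
    EqC ((7 ^ a : ℤ) • act α β γ δ (cp Φ i)) (pr Φ ((Polynomial.C α * Polynomial.X + Polynomial.C β) ^ i *
      (Polynomial.C γ * Polynomial.X + Polynomial.C δ) ^ (2 * a - i)))
  tt : ∀ j : ℕ, j ≤ 2 * a → EqC (fun x y => ∑ i ∈ Finset.range p,
    pr Φ ((Polynomial.X - Polynomial.C (i : ℤ)) ^ j) (x + i * y) y) 0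
  ss : ∀ j : ℕ, j ≤ 2 * a → EqC (fun x y => ∑ i ∈ Finset.range p,
    pr Φ (Polynomial.X ^ j * (1 - Polynomial.C (7 * (p : ℤ) ^ ν * i) * Polynomial.X) ^ (2 * a - j))
      x (7 * (p : ℤ) ^ ν * i * x + y)) 0
  fr : EqC (act 0 (-1) (7 * (p : ℤ) ^ ν) 0 (cp Φ a)) (-(cp Φ a))
  st : EqC (act (-1) 0 0 1 (cp Φ a)) (cp Φ a)
  hk : ∀ M : ℕ, 1 ≤ M → ∀ ls : List ℕ, OkH 7 p ls →
    WTw a ((p : ℤ) ^ M) ls Φ 1 0 a = WTw a ((p : ℤ) ^ M) ls Φ 0 1 a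

/-- As the item of the same name in `Helper28/TH/StW.lean` (proof there), with `7` in place of `2`. -/
def UIpH : Prop := ∀ (p : ℕ), 2 ≤ p → ¬ 7 ∣ p → ∀ (R : Type) (_ : AddCommGroup R) (r s : ℕ)
  (χ : ℤ → ℤ → R), SymH p r s χ → EqC (act p 0 0 1 χ) χ → EqC ((6 : ℤ) • χ) 0

/-- As the item of the same name in `Helper28/TH/StW.lean` (proof there), with `7` in place of `2`. -/
def SHUIp : Prop := UIpH

/-- As the item of the same name in `Helper28/TH/StW.lean` (proof there), with `7` in place of `2`. -/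
def SHLa : Prop := ∀ (p : ℕ) (_ : Fact p.Prime) (κ : ℤ), p ≠ 7 → TAH p κ →
  ∀ (ν M : ℕ) (g : ℤ → ℤ → ZMod (p ^ M)), 3 ≤ M → SymH p M (M + ν) g →
  EqC (act 0 (-1) (7 * (p : ℤ) ^ ν) 0 g) (-g) → EqC (act (-1) 0 0 1 g) g →
  (∀ ls : List ℕ, OkH 7 p ls → evw ((p : ℤ) ^ M) ls g = 0) →
  ∃ ψ : ℤ → ℤ → ZMod (p ^ M), SymH p M (M + ν - 1) ψ ∧ EqC (act p 0 0 1 ψ - ψ) (κ • g)

/-- As the item of the same name in `Helper28/TH/StW.lean` (proof there), with `7` in place of `2`. -/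
def SHLb2 : Prop := SHLa → UIpH → ∀ (p : ℕ) (_ : Fact p.Prime) (κ : ℤ), p ≠ 7 → TAH p κ →
  ∀ (ν : ℕ) (G : ℤ → ℤ → ℤ_[p]),
  Homog G → (∀ M : ℕ, 3 ≤ M → SymH p M (M + ν) (redP M G)) →
  EqC (act 0 (-1) (7 * (p : ℤ) ^ ν) 0 G) (-G) → EqC (act (-1) 0 0 1 G) G →
  (∀ M : ℕ, 3 ≤ M → ∀ ls : List ℕ, OkH 7 p ls → evw ((p : ℤ) ^ M) ls (redP M G) = 0) →
  ∃ ψ : ℤ → ℤ → ℤ_[p], Homog ψ ∧ (∀ M : ℕ, 3 ≤ M → SymH p M (M + ν - 1) (redP M ψ)) ∧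
    EqC (act p 0 0 1 ψ - ψ) ((6 * κ : ℤ) • G)

/-- As the item of the same name in `Helper28/TH/StW.lean` (proof there), with `7` in place of `2`. -/
def SHPol : Prop := ∀ (p : ℕ) (_ : Fact p.Prime) (κ : ℤ) (a ν : ℕ) (G ψ : ℤ → ℤ → ℤ_[p]), p ≠ 7 →
  Homog G → Homog ψ → (∀ M : ℕ, 3 ≤ M → SymH p M (M + ν - 1) (redP M ψ)) →
  EqC (act p 0 0 1 ψ - ψ) (κ • G) → (∀ h : ℤ, (p : ℤ) ∣ h → EqC (Nb a h G) 0) →
  (∀ c : ℤ, 7 * (p : ℤ) ^ (ν + 1) ∣ c → EqC (Nc a c G) 0) →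
  (∀ h : ℤ, EqC (Nb a h (ψ + κ • G)) 0) ∧ (∀ c : ℤ, 7 * (p : ℤ) ^ ν ∣ c → EqC (Nc a c ψ) 0)

/-- As the item of the same name in `Helper28/TH/StW.lean` (proof there), with `7` in place of `2`. -/
def SHGp : Prop := StPl1 → ∀ (p : ℕ) (_ : Fact p.Prime) (a ν : ℕ) (P : ℤ → ℤ_[p]) (y : ℤ), 1 ≤ ν →
  (Plf a P → ∃ (f : Polynomial ℚ_[p]) (K : ℝ), f.natDegree ≤ a ∧ ∀ (L : ℕ) (x b : ℤ), 1 ≤ L →
    (p : ℤ) ^ L ∣ b * (1 - 7 * (p : ℤ) ^ ν * x * y) - x →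
    ‖(1 - 7 * (p : ℚ_[p]) ^ ν * x * y) ^ a * ((P b : ℤ_[p]) : ℚ_[p]) - f.eval (x : ℚ_[p])‖ ≤
      K * ((p : ℝ) ^ L)⁻¹) ∧
  (QPf a P → ∃ (r : ℤ → Polynomial ℚ_[p]) (K : ℝ), (∀ x, (r x).natDegree ≤ a) ∧
    (∀ x : ℤ, r (x + p) = r x) ∧ (∑ i ∈ Finset.range p, r (i : ℤ)) = 0 ∧
    ∀ (L : ℕ) (x b : ℤ), 1 ≤ L → (p : ℤ) ^ L ∣ b * (1 - 7 * (p : ℤ) ^ ν * x * y) - x →
    ‖(1 - 7 * (p : ℚ_[p]) ^ ν * x * y) ^ a * ((P b : ℤ_[p]) : ℚ_[p]) - (r x).eval (x : ℚ_[p])‖ ≤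
      K * ((p : ℝ) ^ L)⁻¹)

/-- As the item of the same name in `Helper28/TH/StW.lean` (proof there), with `7` in place of `2`. -/
def GrH : Prop := ∀ (p : ℕ) (_ : Fact p.Prime) (κ : ℤ) (a ν : ℕ)
  (Fc Fb Hc Hb : ℤ → ℤ → ℤ_[p]), κ ≠ 0 → 1 ≤ ν → (∀ x, Plf a (Fc x)) →
  (∀ y, Plf a (fun b => Fb y b + (κ : ℤ_[p]) * Hb y b)) → (∀ x, QPf a (Hc x)) → (∀ y, QPf a (Hb y)) →
  (∀ (L : ℕ) (x y c b : ℤ), 3 ≤ L → (p : ℤ) ^ L ∣ c * (1 - 7 * (p : ℤ) ^ ν * x * y) - y →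
    (p : ℤ) ^ L ∣ b * (1 - 7 * (p : ℤ) ^ ν * x * y) - x →
    (p : ℤ_[p]) ^ L ∣ Fc x c - Fb y b ∧ (p : ℤ_[p]) ^ L ∣ Hc x c - Hb y b) → Hc 0 0 = 0

/-- As the item of the same name in `Helper28/TH/StW.lean` (proof there), with `7` in place of `2`. -/
def SHGr : Prop := SHGp → StPl1 → GrH

/-- As the item of the same name in `Helper28/TH/StW.lean` (proof there), with `7` in place of `2`. -/
def SHCC : Prop := ∀ (p ν L : ℕ) (R : Type) (_ : AddCommGroup R) (X : ℤ → ℤ → R),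
  SymH p L (L + ν) X → ∀ x y c b v1 v2 w1 w2 : ℤ, (v1 ≠ 0 ∨ v2 ≠ 0) → (w1 ≠ 0 ∨ w2 ≠ 0) →
  (p : ℤ) ^ L ∣ c * (1 - 7 * (p : ℤ) ^ ν * x * y) - y →
  (p : ℤ) ^ L ∣ b * (1 - 7 * (p : ℤ) ^ ν * x * y) - x →
  X (w1 + x * w2) (7 * (p : ℤ) ^ ν * c * (w1 + x * w2) + w2) -
    X (v1 + x * v2) (7 * (p : ℤ) ^ ν * c * (v1 + x * v2) + v2) =
  X (w1 + b * (7 * (p : ℤ) ^ ν * y * w1 + w2)) (7 * (p : ℤ) ^ ν * y * w1 + w2) -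
    X (v1 + b * (7 * (p : ℤ) ^ ν * y * v1 + v2)) (7 * (p : ℤ) ^ ν * y * v1 + v2)

/-- As the item of the same name in `Helper28/TH/StW.lean` (proof there), with `7` in place of `2`. -/
def SHG5 : Prop := GrH → SHCC → ∀ (p : ℕ) (_ : Fact p.Prime) (κ : ℤ) (a ν : ℕ) (G ψ : ℤ → ℤ → ℤ_[p]),
  κ ≠ 0 → 1 ≤ ν →
  (∀ M : ℕ, 3 ≤ M → SymH p M (M + ν) (redP M G)) →
  (∀ M : ℕ, 3 ≤ M → SymH p M (M + ν - 1) (redP M ψ)) →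
  (∀ h : ℤ, EqC (Nb a h (ψ + κ • G)) 0) → (∀ c : ℤ, 7 * (p : ℤ) ^ ν ∣ c → EqC (Nc a c ψ) 0) →
  (∀ v1 v2 w1 w2 : ℤ, (v1 ≠ 0 ∨ v2 ≠ 0) → (w1 ≠ 0 ∨ w2 ≠ 0) →
    QPf a (fun b => G (w1 + b * w2) w2 - G (v1 + b * v2) v2) ∧
    QPf a (fun c => G w1 (7 * (p : ℤ) ^ ν * c * w1 + w2) - G v1 (7 * (p : ℤ) ^ ν * c * v1 + v2))) →
  EqC G 0

/-- As the item of the same name in `Helper28/TH/StW.lean` (proof there), with `7` in place of `2`. -/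
def SHW1 : Prop := ∀ (p : ℕ) (_ : Fact p.Prime) (a ν : ℕ) (Φ : ℤ → ℤ → ℕ → ℤ_[p]), p ≠ 7 →
  WSymH p a ν Φ → ∀ M : ℕ, 1 ≤ M → SymH p M (M + ν) (redP M (cp Φ a))

/-- As the item of the same name in `Helper28/TH/StW.lean` (proof there), with `7` in place of `2`. -/
def SHW2 : Prop := ∀ (p : ℕ) (_ : Fact p.Prime) (a ν : ℕ) (Φ : ℤ → ℤ → ℕ → ℤ_[p]),
  WSymH p a ν Φ → (∀ h : ℤ, (p : ℤ) ∣ h → EqC (Nb a h (cp Φ a)) 0) ∧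
    (∀ c : ℤ, 7 * (p : ℤ) ^ (ν + 1) ∣ c → EqC (Nc a c (cp Φ a)) 0)

/-- As the item of the same name in `Helper28/TH/StW.lean` (proof there), with `7` in place of `2`. -/
def SHW3 : Prop := ∀ (p : ℕ) (_ : Fact p.Prime) (a ν : ℕ) (Φ : ℤ → ℤ → ℕ → ℤ_[p]),
  WSymH p a ν Φ → ∀ v1 v2 w1 w2 : ℤ, (v1 ≠ 0 ∨ v2 ≠ 0) → (w1 ≠ 0 ∨ w2 ≠ 0) →
    QPf a (fun b => cp Φ a (w1 + b * w2) w2 - cp Φ a (v1 + b * v2) v2) ∧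
    QPf a (fun c => cp Φ a w1 (7 * (p : ℤ) ^ ν * c * w1 + w2) -
      cp Φ a v1 (7 * (p : ℤ) ^ ν * c * v1 + v2))

/-- As the item of the same name in `Helper28/TH/StW.lean` (proof there), with `7` in place of `2`. -/
def SHW4 : Prop := ∀ (p : ℕ) (_ : Fact p.Prime) (a ν : ℕ) (Φ : ℤ → ℤ → ℕ → ℤ_[p]),
  WSymH p a ν Φ → ∀ M : ℕ, 1 ≤ M → ∀ ls : List ℕ, OkH 7 p ls →
    evw ((p : ℤ) ^ M) ls (redP M (cp Φ a)) = 0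

/-- As the item of the same name in `Helper28/TH/StW.lean` (proof there), with `7` in place of `2`. -/
def SHMap : Prop := ∀ (p a ν : ℕ), p ≠ 0 → ∀ (R S : Type) (_ : AddCommGroup R) (_ : AddCommGroup S)
  (lam : R →+ S) (Φ : ℤ → ℤ → ℕ → R),
  (WSymH p a ν Φ → WSymH p a ν (fun x y i => lam (Φ x y i))) ∧
  (Function.Injective lam → WSymH p a ν (fun x y i => lam (Φ x y i)) → WSymH p a ν Φ) ∧
  ∀ Φ' : ℤ → ℤ → ℕ → R, (∀ i : ℕ, i ≤ 2 * a → EqC (cp Φ' i) (cp Φ i)) → WSymH p a ν Φ →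
    WSymH p a ν Φ'

/-- As the item of the same name in `Helper28/TH/StW.lean` (proof there), with `7` in place of `2`. -/
def SHDen : Prop := StFar → SHMap → ∀ (p a ν : ℕ) (Φ : ℤ → ℤ → ℕ → ℚ), p.Prime → WSymH p a ν Φ →
  ∃ (N : ℤ) (Ψ : ℤ → ℤ → ℕ → ℤ), N ≠ 0 ∧ WSymH p a ν Ψ ∧
    ∀ i : ℕ, i ≤ 2 * a → EqC (fun x y => ((Ψ x y i : ℤ) : ℚ)) (N • cp Φ i)

/-- As the item of the same name in `Helper28/TH/StW.lean` (proof there), with `7` in place of `2`. -/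
def SHQC : Prop := StFar → SHMap → SHDen → ∀ (p : ℕ) (_ : Fact p.Prime) (a ν : ℕ),
  (∀ Φ : ℤ → ℤ → ℕ → ℤ_[p], WSymH p a ν Φ → EqC (cp Φ a) 0) →
  ∀ Φ : ℤ → ℤ → ℕ → ℂ, WSymH p a ν Φ → EqC (cp Φ a) 0

/-- As the item of the same name in `Helper28/TH/StW.lean` (proof there), with `7` in place of `2`. -/
def SHAll : Prop := ∀ (p a ν : ℕ) (Φ : ℤ → ℤ → ℕ → ℂ), p.Prime → WSymH p a ν Φ → EqC (cp Φ a) 0 →
  ∀ i : ℕ, i ≤ 2 * a → EqC (cp Φ i) 0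

/-! ### Interface with the analytic part -/

/-- As the item of the same name in `Helper28/TH/StW.lean` (proof there), with `7` in place of `2`. -/
structure IDataH (p a ν : ℕ) (I : ℤ → ℤ → ℕ → ℂ) : Prop where
  hom : ∀ i : ℕ, i ≤ 2 * a → Homog (cp I i)
  inf : ∀ i : ℕ, i ≤ 2 * a → I 1 0 i = 0
  eqv : ∀ α β γ δ : ℤ, α * δ - β * γ = 1 → 7 * (p : ℤ) ^ (ν + 2) ∣ γ → ∀ i : ℕ, i ≤ 2 * a →
    EqC (act α β γ δ (cp I i)) (pr I ((Polynomial.C α * Polynomial.X + Polynomial.C β) ^ i *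
      (Polynomial.C γ * Polynomial.X + Polynomial.C δ) ^ (2 * a - i)))
  eqq : ∀ α β γ δ : ℤ, α * δ - β * γ = 7 → (7 : ℤ) ∣ α → (7 : ℤ) ∣ δ → 7 * (p : ℤ) ^ (ν + 2) ∣ γ →
    ∀ i : ℕ, i ≤ 2 * a →
    EqC ((7 ^ a : ℤ) • act α β γ δ (cp I i)) (pr I ((Polynomial.C α * Polynomial.X + Polynomial.C β) ^ i *
      (Polynomial.C γ * Polynomial.X + Polynomial.C δ) ^ (2 * a - i)))
  tt : ∀ j : ℕ, j ≤ 2 * a → EqC (fun x y => ∑ i ∈ Finset.range p,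
    pr I ((Polynomial.C (p : ℤ) * Polynomial.X - Polynomial.C (i : ℤ)) ^ j)
      (p * x + i * y) (p * y)) 0
  ss : ∀ j : ℕ, j ≤ 2 * a → EqC (fun x y => ∑ i ∈ Finset.range p,
    pr I (Polynomial.X ^ j *
      (1 - Polynomial.C (7 * (p : ℤ) ^ (ν + 1) * i) * Polynomial.X) ^ (2 * a - j))
      x (7 * (p : ℤ) ^ (ν + 1) * i * x + y)) 0
  fr : EqC (act 0 (-1) (7 * (p : ℤ) ^ (ν + 2)) 0 (cp I a)) (-(cp I a))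
  hk : ∃ lam : ℕ → ℂ, ∀ (l : ℕ) (m : ℤ), l.Prime → l ≠ p → l ≠ 7 → IsCoprime m (l : ℤ) →
    ∀ i : ℕ, i ≤ 2 * a → ∀ x y : ℤ, (x ≠ 0 ∨ y ≠ 0) →
    (∑ j ∈ Finset.range l, pr I ((Polynomial.C (l : ℤ) * Polynomial.X -
      Polynomial.C (m * j)) ^ i) (x + m * j * y) (l * y)) +
      ((l : ℤ) ^ (2 * a - i)) • I (l * x) y i = lam l * I x y i

/-- As the item of the same name in `Helper28/TH/StW.lean` (proof there), with `7` in place of `2`. -/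
def SHTr : Prop := ∀ (p a ν : ℕ) (I : ℤ → ℤ → ℕ → ℂ), p.Prime → p ≠ 7 → IDataH p a ν I → I 0 1 a = 0 →
  WSymH p a ν (PhiOf p a I)

end Pool.Agent.Helper28.T7
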